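import Mathlib

set_option autoImplicit false
open Set Filter Topology Metric Real InnerProductSpace Complex

namespace Pool.Agent.H.MP_e6ddea_an

lemma noharm {u : ℂ → ℝ} {z : ℂ} (h : HarmonicAt u z) (h0 : ∀ᶠ w in 𝓝 z, 0 ≤ u w) (hz : u z = 0) :
    ∀ᶠ w in 𝓝 z, u w ≤ 0 := by
  obtain ⟨ε, e0, hε⟩ := Metric.eventually_nhds_iff.1 (h.eventually.and h0)
  filter_upwards [ball_mem_nhds z e0] with w hw
  by_contra! c
  have s0 : 0 < dist w z := dist_pos.2 fun k => by simp [k, hz] at c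
  have a : circleAverage u z (dist w z) = u z := HarmonicOnNhd.circleAverage_eq fun y hy =>
    (hε (by rw [abs_of_pos s0] at hy; exact lt_of_le_of_lt hy hw)).1
  have b (θ : ℝ) := hε (y := circleMap z (dist w z) θ) (by rw [circleMap_mem_sphere z s0.le θ]; exact hw)
  obtain ⟨θ, hθ, e⟩ : w ∈ circleMap z (dist w z) '' Ioc 0 (2 * π) := by
    rw [image_circleMap_Ioc, abs_of_pos s0]; rfl
  have := intervalIntegral.integral_lt_integral_of_continuousOn_of_le_of_exists_lt two_pi_pos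
    (f := fun _ => 0) (g := fun θ => u (circleMap z (dist w z) θ)) continuousOn_const
    (fun θ _ => ((b θ).1.1.continuousAt.comp (continuous_circleMap _ _).continuousAt).continuousWithinAt)
    (fun θ _ => (b θ).2) ⟨θ, Ioc_subset_Icc_self hθ, by simpa [e]⟩
  rw [circleAverage, hz, smul_eq_mul, mul_eq_zero] at a
  simp [a.resolve_left (by simp [pi_ne_zero])] at this

lemma MP {Ω : Set ℂ} (ho : IsOpen Ω) {f : ℂ → ℝ} (hf : HarmonicOnNhd f Ω)
    (hK : ∀ δ > (0 : ℝ), ∃ K, IsCompact K ∧ K ⊆ Ω ∧ ∀ z ∈ Ω, δ ≤ f z → z ∈ K) : ∀ z ∈ Ω, f z ≤ 0 := by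
  intro z hz
  by_contra! c
  obtain ⟨K, cK, s, h⟩ := hK _ c
  have cf := hf.continuousOn.mono s
  obtain ⟨p, hp, m⟩ := cK.exists_isMaxOn ⟨z, h z hz le_rfl⟩ cf
  have zp : f z ≤ f p := m (h z hz le_rfl)
  have le (w : ℂ) (hw : w ∈ Ω) : f w ≤ f p := by
    by_cases k : f z ≤ f w
    · exact m (h w hw k)
    · linarith
  have cl : IsClopen (K ∩ f ⁻¹' {f p}) := ⟨cf.preimage_isClosed_of_isClosed cK.isClosed isClosed_singleton,
    isOpen_iff_mem_nhds.2 fun w hw => by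
      have n := ho.mem_nhds (s hw.1)
      filter_upwards [n, noharm ((harmonicAt_const (f p)).sub (hf w (s hw.1)))
        (mem_of_superset n fun y hy => sub_nonneg.2 (le y hy)) (sub_eq_zero.2 hw.2.symm)] with y hy k
      have k : f p ≤ f y := sub_nonpos.1 k
      exact ⟨h y hy (zp.trans k), (le y hy).antisymm k⟩⟩
  have := cl.eq_univ ⟨p, hp, rfl⟩
  exact noncompact_univ ℂ (eq_univ_of_univ_subset (this ▸ inter_subset_left) ▸ cK)

lemma nI {z : ℂ} (h : 0 < z.im) : 1 ≤ ‖z + I‖ :=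
  le_trans (by simp [le_abs]; exact .inl h.le) (abs_im_le_norm _)

noncomputable def P (a z : ℂ) : ℝ := Real.log ‖z + I‖ + Real.log (1 + ‖a + I‖) - Real.log ‖z - a‖

lemma hlog {z c : ℂ} (h : z + c ≠ 0) : HarmonicAt (fun z : ℂ => Real.log ‖z + c‖) z :=
  AnalyticAt.harmonicAt_log_norm (f := fun z => z + c) (by fun_prop) h

lemma nI' {z : ℂ} (h : 0 < z.im) : z + I ≠ 0 := norm_pos_iff.1 (one_pos.trans_le (nI h))

lemma Ph {a z : ℂ} (h : 0 < z.im) (ha : z ≠ a) : HarmonicAt (P a) z :=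
  ((hlog (nI' h)).add (harmonicAt_const _)).sub (hlog (c := -a) (sub_ne_zero.2 ha))

lemma Pb {a z : ℂ} (h : 0 < z.im) (ha : z ≠ a) : 0 ≤ P a z ∧ -Real.log ‖z - a‖ ≤ P a z := by
  have n := nI h
  have n2 := norm_nonneg (a + I)
  have l1 := Real.log_nonneg n
  have l2 := Real.log_nonneg (show 1 ≤ 1 + ‖a + I‖ by linarith)
  refine ⟨?_, by unfold P; linarith⟩
  rw [P, ← Real.log_mul (by linarith) (by linarith), sub_nonneg]
  refine Real.log_le_log (norm_pos_iff.2 (sub_ne_zero.2 ha)) ?_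
  have := norm_sub_le (z + I) (a + I)
  rw [add_sub_add_right_eq_sub] at this
  nlinarith

lemma PL {Ω : Set ℂ} (ho : IsOpen Ω) {a b : ℂ} (hΩ : ∀ z ∈ Ω, 0 < z.im ∧ z ≠ a ∧ z ≠ b) {w : ℂ → ℝ}
    (hw : HarmonicOnNhd w Ω) {C : ℝ} (hC : ∀ z ∈ Ω, w z ≤ C)
    (hb : ∀ q : ℂ, 0 ≤ q.im → q ∉ Ω → q ≠ a → q ≠ b → ∀ δ > (0 : ℝ), ∀ᶠ z in 𝓝 q, z ∈ Ω → w z < δ) :
    ∀ z ∈ Ω, w z ≤ 0 := by
  have key (ε : ℝ) (e0 : 0 < ε) : ∀ z ∈ Ω, w z - ε * (Real.log ‖z + I‖ + P a z + P b z) ≤ 0 := by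
    refine MP ho (fun z hz => (hw z hz).sub ((((hlog (nI' (hΩ z hz).1)).add (Ph (hΩ z hz).1 (hΩ z hz).2.1)).add
      (Ph (hΩ z hz).1 (hΩ z hz).2.2)).const_smul (c := ε))) fun δ d0 => ?_
    set S := {z ∈ Ω | δ ≤ w z - ε * (Real.log ‖z + I‖ + P a z + P b z)}
    have m (z : ℂ) (hz : z ∈ S) : δ ≤ w z ∧ z ∈ closedBall (-I) (rexp (C / ε)) ∩ ({z : ℂ | 0 ≤ z.im} ∩
        ((ball a (rexp (-(C / ε))))ᶜ ∩ (ball b (rexp (-(C / ε))))ᶜ)) := by
      obtain ⟨h1, h2, h3⟩ := hΩ z hz.1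
      have l := Real.log_nonneg (nI h1)
      have pa := Pb h1 h2
      have pb := Pb h1 h3
      have := hz.2
      have := hC z hz.1
      have t : Real.log ‖z + I‖ + P a z + P b z ≤ C / ε := by rw [le_div_iff₀ e0]; linarith
      have g (c : ℂ) (k : z ≠ c) (j : -Real.log ‖z - c‖ ≤ C / ε) : z ∉ ball c (rexp (-(C / ε))) := by
        rw [mem_ball_iff_norm, not_lt, ← Real.le_log_iff_exp_le (norm_pos_iff.2 (sub_ne_zero.2 k))]
        linarith
      refine ⟨by nlinarith [mul_nonneg e0.le (show 0 ≤ Real.log ‖z + I‖ + P a z + P b z by linarith)],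
        ?_, h1.le, g a h2 (by linarith), g b h3 (by linarith)⟩
      rw [mem_closedBall_iff_norm, sub_neg_eq_add, ← Real.log_le_iff_le_exp (one_pos.trans_le (nI h1))]
      linarith
    have cl := closure_minimal (fun z hz => (m z hz).2) (isClosed_closedBall.inter
      ((isClosed_le continuous_const continuous_im).inter
        (isOpen_ball.isClosed_compl.inter isOpen_ball.isClosed_compl)))
    refine ⟨closure S, (isCompact_closedBall _ _).of_isClosed_subset isClosed_closure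
      (cl.trans inter_subset_left), fun q hq => ?_, fun z hz k => subset_closure ⟨hz, k⟩⟩
    by_contra c
    obtain ⟨-, h1, h2, h3⟩ := cl hq
    obtain ⟨z, hz, k⟩ := ((mem_closure_iff_frequently.1 hq).and_eventually (hb q h1 c
      (fun e => h2 (e ▸ mem_ball_self (exp_pos _))) (fun e => h3 (e ▸ mem_ball_self (exp_pos _))) δ d0)).exists
    exact (k hz.1).not_ge (m z hz).1
  intro z hz
  refine ge_of_tendsto (f := fun ε : ℝ => ε * (Real.log ‖z + I‖ + P a z + P b z)) (x := 𝓝[>] 0)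
    ((Continuous.tendsto' (by fun_prop) _ _ (by simp)).mono_left nhdsWithin_le_nhds) ?_
  filter_upwards [self_mem_nhdsWithin] with ε e0 using sub_nonpos.1 (key ε e0 z hz)

lemma hcomp {u : ℂ → ℝ} {φ : ℂ → ℂ} {z : ℂ} (h : HarmonicAt u (φ z)) (hφ : AnalyticAt ℂ φ z) :
    HarmonicAt (fun z => u (φ z)) z := by
  obtain ⟨ε, e0, hε⟩ := Metric.eventually_nhds_iff_ball.1 h.eventually
  obtain ⟨F, aF, e⟩ := HarmonicOnNhd.exists_analyticOnNhd_ball_re_eq hε
  refine (harmonicAt_congr_nhds ?_).1 ((aF _ (mem_ball_self e0)).comp hφ).harmonicAt_re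
  filter_upwards [hφ.continuousAt (ball_mem_nhds _ e0)] with y hy using e hy

lemma harnack {u : ℂ → ℝ} {c w : ℂ} {R : ℝ} (h : HarmonicOnNhd u (closedBall c R))
    (h0 : ∀ z ∈ closedBall c R, 0 ≤ u z) (hw : w ∈ ball c R) :
    u w ≤ (R + ‖w - c‖) / (R - ‖w - c‖) * u c := by
  have R0 := pos_of_mem_ball hw
  have aR := abs_of_pos R0
  have cu : ContinuousOn u (sphere c |R|) := h.continuousOn.mono (by rw [aR]; exact sphere_subset_closedBall)
  rw [← h.circleAverage_re_herglotzRieszKernel_smul hw, ← HarmonicOnNhd.circleAverage_eq (f := u) (c := c) (R := R) (aR.symm ▸ h),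
    ← smul_eq_mul, ← circleAverage_smul]
  refine circleAverage_mono (ContinuousOn.circleIntegrable' (.smul (continuous_re.comp_continuousOn ?_) cu))
    (ContinuousOn.circleIntegrable' (cu.const_smul _)) fun z hz => ?_
  · simpa [aR] using continuousOn_herglotzRieszKernel_sphere hw
  rw [aR] at hz
  exact mul_le_mul_of_nonneg_right (re_herglotzRieszKernel_le hz hw) (h0 z (sphere_subset_closedBall hz))

end Pool.Agent.H.MP_e6ddea_an
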