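import Pool.Agent.H.MP_e6ddea_an.A
import Pool.Agent.H.MP_084a52_an.A

set_option autoImplicit false
open Set Filter Topology Metric Real InnerProductSpace Complex

namespace Pool.Agent.H.MP_e6ddea_an

def D : Set ℂ := {z | 0 < z.im ∧ z ≠ 2 * I}

lemma Do : IsOpen D := (isOpen_lt continuous_const continuous_im).inter isOpen_ne

lemma ID : I ∈ D := ⟨by simp, fun h => by simpa using congrArg im h⟩

lemma him (z : ℂ) : HarmonicAt im z := analyticAt_id.harmonicAt_im

lemma small {q : ℂ} (h : q.im = 0) {δ : ℝ} (d : 0 < δ) : ∀ᶠ z in 𝓝 q, z.im < δ :=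
  continuous_im.continuousAt.eventually_lt continuousAt_const (by simpa [h])

lemma transl {u : ℂ → ℝ} (hu : HarmonicOnNhd u D) (h : ∀ z ∈ D, 0 < u z ∧ u z ≤ z.im) (t : ℝ) :
    ∀ z ∈ D ∩ (· + t) ⁻¹' D, u (z + t) - u z ≤ 0 := by
  have t0 := abs_nonneg t
  refine PL (Do.inter (Do.preimage (by fun_prop))) (a := 2 * I) (b := 2 * I - t)
    (fun z hz => ⟨hz.1.1, hz.1.2, fun e => hz.2.2 (by simp [e])⟩)
    (fun z hz => (hcomp (φ := (· + t)) (hu _ hz.2) (by fun_prop)).sub (hu z hz.1)) (C := 5 + 8 * |t|)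
    (fun z hz => ?_) fun q q0 c ca cb δ d0 => ?_
  · have a := h z hz.1
    have b := h _ hz.2
    simp only [add_im, ofReal_im, add_zero] at b
    by_cases y : z.im ≤ 5 + 4 * |t|
    · linarith
    push Not at y
    have s : closedBall z (z.im / 2) ⊆ D := fun w hw => by
      have := abs_le.1 ((abs_im_le_norm _).trans (mem_closedBall_iff_norm.1 hw))
      rw [sub_im] at this
      exact ⟨by linarith, fun e => by simp [e] at this; linarith⟩
    have n : ‖z + t - z‖ = |t| := by simp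
    have := harnack (hu.mono s) (fun w hw => (h w (s hw)).1.le) (w := z + t)
      (mem_ball_iff_norm.2 (by linarith))
    rw [n, div_mul_eq_mul_div, le_div_iff₀ (by linarith)] at this
    by_contra! k
    nlinarith [mul_le_mul_of_nonneg_left a.2 t0, mul_pos (show 0 < u (z + t) - u z - 8 * |t| by linarith)
      (show 0 < z.im / 2 - |t| by linarith), mul_nonneg t0 (show 0 ≤ z.im - 4 * |t| by linarith)]
  · have : q.im = 0 := by
      by_contra k
      have := q0.lt_of_ne' k
      exact c ⟨⟨this, ca⟩, by simpa, fun e => cb (eq_sub_of_add_eq e)⟩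
    filter_upwards [small this d0] with z hz m
    have a := h z m.1
    have b := h _ m.2
    simp only [add_im, ofReal_im, add_zero] at b
    linarith

lemma horiz {u : ℂ → ℝ} (hu : HarmonicOnNhd u D) (h : ∀ z ∈ D, 0 < u z ∧ u z ≤ z.im) {z w : ℂ}
    (hz : z ∈ D) (hw : w ∈ D) (e : z.im = w.im) : u z ≤ u w := by
  have k : w + (z.re - w.re : ℝ) = z := Complex.ext (by simp) (by simp [e])
  have := transl hu h (z.re - w.re) w ⟨hw, by simpa only [mem_preimage, k]⟩
  rwa [k, sub_nonpos] at this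

lemma strip {u : ℂ → ℝ} (hu : HarmonicOnNhd u D) (h : ∀ z ∈ D, 0 < u z ∧ u z ≤ z.im) {b : ℝ} (hb : 2 < b)
    (s : ℝ) : ∀ z ∈ D ∩ {z | z.im < b}, s * (u z - u (b * I) / b * z.im) ≤ 0 := by
  have m (q : ℂ) (e : q.im = b) : q ∈ D := ⟨by linarith, fun k => by simp [k] at e; linarith⟩
  have bI := m (b * I) (by simp)
  have c0 : 0 < u (b * I) / b := div_pos (h _ bI).1 (by linarith)
  have c1 : u (b * I) / b ≤ 1 := (div_le_one (by linarith)).2 (by simpa using (h _ bI).2)
  have hw (z : ℂ) (hz : z ∈ D) : HarmonicAt (fun z => s * (u z - u (b * I) / b * z.im)) z :=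
    ((hu z hz).sub ((him z).const_smul (c := u (b * I) / b))).const_smul (c := s)
  have bd (z : ℂ) (hz : z ∈ D) : s * (u z - u (b * I) / b * z.im) ≤ |s| * z.im := by
    have := h z hz
    have := hz.1
    refine (le_abs_self _).trans ((abs_mul _ _).trans_le (mul_le_mul_of_nonneg_left
      (abs_le.2 ⟨?_, ?_⟩) (abs_nonneg s))) <;> nlinarith
  refine PL (Do.inter (isOpen_lt continuous_im continuous_const)) (a := 2 * I) (b := 2 * I)
    (fun z hz => ⟨hz.1.1, hz.1.2, hz.1.2⟩) (fun z hz => hw z hz.1) (C := |s| * b)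
    (fun z hz => (bd z hz.1).trans (mul_le_mul_of_nonneg_left (le_of_lt hz.2) (abs_nonneg s)))
    fun q q0 c ca _ δ d0 => ?_
  rcases q0.eq_or_lt with k | k
  · have : ∀ᶠ z in 𝓝 q, |s| * z.im < δ :=
      ContinuousAt.eventually_lt (by fun_prop) continuousAt_const (by simpa [← k])
    exact this.mono fun z hz m => (bd z m.1).trans_lt hz
  rcases (not_lt.1 fun j : q.im < b => c ⟨⟨k, ca⟩, j⟩).eq_or_lt with j | j
  · have qD := m q j.symm
    have e : u q = u (b * I) := (horiz hu h qD bI (by simp [j])).antisymm (horiz hu h bI qD (by simp [j]))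
    exact ((hw q qD).1.continuousAt.eventually_lt continuousAt_const (by
      rw [← j, div_mul_cancel₀ _ (by linarith), e]; simpa)).mono fun z hz _ => hz
  · exact (continuousAt_const.eventually_lt continuous_im.continuousAt j).mono fun z hz m =>
      absurd m.2 (not_lt.2 hz.le)

lemma Kmin {u : ℂ → ℝ} (hu : HarmonicOnNhd u D) (h : ∀ z ∈ D, 0 < u z ∧ u z ≤ z.im) :
    ∀ z ∈ D, u z = u I * z.im := fun z hz => by
  have hb : 2 < z.im + 2 := by linarith [hz.1]
  have e (w : ℂ) (hw : w ∈ D) (k : w.im < z.im + 2) : u w = u ((z.im + 2 : ℝ) * I) / (z.im + 2) * w.im := by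
    linarith [strip hu h hb 1 w ⟨hw, k⟩, strip hu h hb (-1) w ⟨hw, k⟩]
  rw [e z hz (by linarith), e I ID (by rw [I_im]; linarith), I_im, mul_one]

noncomputable def G (a z : ℂ) : ℝ := Real.log ‖z + a‖ - Real.log ‖z - a‖

lemma Gh {y : ℝ} (y0 : 0 < y) {z : ℂ} (h : 0 < z.im) (k : z ≠ y * I) :
    HarmonicAt (G (y * I)) z ∧ 0 < G (y * I) z := by
  refine ⟨(hlog fun e => ?_).sub (hlog (c := -(y * I)) (sub_ne_zero.2 k)), sub_pos.2
    (Real.log_lt_log (norm_pos_iff.2 (sub_ne_zero.2 k)) ?_)⟩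
  · have := congrArg im e
    simp at this; linarith
  · rw [← sq_lt_sq₀ (norm_nonneg _) (norm_nonneg _), Complex.sq_norm, Complex.sq_norm, normSq_apply, normSq_apply]
    simp; nlinarith

lemma Gmin {u h : ℂ → ℝ} (u0 : ∀ z ∈ D \ {I}, 0 < u z) (hh : HarmonicOnNhd h D)
    (e : ∀ z ∈ D \ {I}, h z = u z + Real.log ‖z - I‖) : ∀ z ∈ D \ {I}, G I z ≤ u z := by
  have hw (z : ℂ) (hz : z ∈ D) : HarmonicAt (fun z => Real.log ‖z + I‖ - h z) z := (hlog (nI' hz.1)).sub (hh z hz)
  have lt (z : ℂ) (hz : z ∈ D) (k : z ≠ I) : Real.log ‖z + I‖ - h z < G I z := by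
    rw [e z ⟨hz, k⟩, G]; linarith [u0 z ⟨hz, k⟩]
  obtain ⟨ρ, ρ0, hρ⟩ := Metric.eventually_nhds_iff.1 ((hw I ID).1.continuousAt.eventually_lt continuousAt_const
    (lt_add_one _))
  have := PL Do (a := 2 * I) (b := 2 * I) (fun z hz => ⟨hz.1, hz.2, hz.2⟩) hw
    (C := max (Real.log ‖I + I‖ - h I + 1) (Real.log (1 + 2 / ρ))) (fun z hz => ?_) fun q q0 c ca _ δ d0 => ?_
  · intro z hz
    have := this z hz.1
    rw [e z hz] at this
    unfold G; linarith
  · by_cases k : dist z I < ρ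
    · exact le_max_of_le_left (hρ k).le
    rw [not_lt, dist_eq_norm] at k
    have n : 0 < ‖z - I‖ := ρ0.trans_le k
    refine le_max_of_le_right ((lt z hz (sub_ne_zero.1 (norm_pos_iff.1 n))).le.trans ?_)
    rw [G, sub_le_iff_le_add, ← Real.log_mul (by positivity) n.ne']
    refine Real.log_le_log (one_pos.trans_le (nI hz.1)) ?_
    have := norm_add_le (z - I) (2 * I)
    rw [show z - I + 2 * I = z + I by ring] at this
    simp only [Complex.norm_mul, Complex.norm_ofNat, norm_I, mul_one] at this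
    have j : 2 / ρ * ρ ≤ 2 / ρ * ‖z - I‖ := by gcongr
    rw [div_mul_cancel₀ _ ρ0.ne'] at j
    linarith
  · have q0 : q.im = 0 := by
      by_contra k
      exact c ⟨q0.lt_of_ne' k, ca⟩
    have a : q + I ≠ 0 := fun e => by simpa [q0] using congrArg im e
    have b : q - I ≠ 0 := fun e => by simpa [q0] using congrArg im e
    have cG : ContinuousAt (G I) q := ((hlog a).sub (hlog (c := -I) b)).1.continuousAt
    have G0 : G I q = 0 := by
      rw [G, sub_eq_zero, ← norm_conj]
      congr 2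
      exact Complex.ext (by simp) (by simp [q0])
    filter_upwards [cG.eventually_lt continuousAt_const (G0 ▸ d0), eventually_ne_nhds (sub_ne_zero.1 b)]
      with z hz k m using (lt z m k).trans hz

lemma Dc : IsConnected D := by
  refine ⟨⟨I, ID⟩, ?_⟩
  have c1 : Convex ℝ ({z : ℂ | 0 < z.im} ∩ {z | z.im < 2}) := (convex_halfSpace_im_gt 0).inter (convex_halfSpace_im_lt 2)
  have c2 : Convex ℝ ({z : ℂ | 0 < z.im} ∩ {z | z.re < 0}) := (convex_halfSpace_im_gt 0).inter (convex_halfSpace_re_lt 0)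
  have c3 : Convex ℝ ({z : ℂ | 0 < z.im} ∩ {z | 0 < z.re}) := (convex_halfSpace_im_gt 0).inter (convex_halfSpace_re_gt 0)
  have c4 : Convex ℝ {z : ℂ | 2 < z.im} := convex_halfSpace_im_gt 2
  have := ((c1.isPreconnected.union (-1 + I) (by simp) (by simp) c2.isPreconnected).union (1 + I) (by simp)
    (by simp) c3.isPreconnected).union (1 + 3 * I) (by simp) (by norm_num) c4.isPreconnected
  convert this using 1
  ext z
  simp only [D, mem_union, mem_inter_iff, mem_ofPred_eq, ne_eq, Complex.ext_iff]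
  norm_num
  grind

lemma Dn : ¬ SimplyConnectedSpace D :=
  MP_084a52_an.nsc Do (g := fun z => z - 2 * I) (by fun_prop) (fun ⟨z, h, e⟩ => h.2 (sub_eq_zero.1 e))
    (β := fun t => 2 * I + cexp (t * I)) (by fun_prop) (fun t => ⟨by
      simp [exp_ofReal_mul_I_im]; linarith [neg_one_le_sin t], by simp⟩) (by simp) (by simp)

lemma notouch {z : ℂ} (hz : z ∈ D) (k : z ≠ I) (n : ‖z - I‖ < 1 / 5)
    (h : ∀ u : ℂ → ℝ, HarmonicOnNhd u D → (∀ z ∈ D, 0 < u z) → u I ≤ 1 → u z ≤ z.im) : False := by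
  have y0 := hz.1
  have e (s : ℝ) (w : ℂ) : ((1 + s ^ 2) / (s - w) : ℂ).im = (1 + s ^ 2) * w.im / ((s - w.re) ^ 2 + w.im ^ 2) := by
    rw [div_im, normSq_apply]
    simp [← ofReal_pow]
    ring
  have p (s : ℝ) : 1 ≤ z.re ^ 2 + z.im ^ 2 - 2 * s * z.re := by
    have := h (fun w => ((1 + s ^ 2) / (s - w) : ℂ).im) (fun w hw => AnalyticAt.harmonicAt_im (by
      have : (s : ℂ) - w ≠ 0 := fun e => by simpa [hw.1.ne'] using congrArg im e
      fun_prop (disch := assumption))) (fun w hw => by have := hw.1; rw [e]; positivity) (by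
        simp only [e, I_im, I_re]; rw [div_le_one (by positivity)]; linarith)
    simp only [e] at this
    rw [div_le_iff₀ (by positivity)] at this
    nlinarith
  have x0 : z.re = 0 := by
    by_contra c
    have := p ((z.re ^ 2 + z.im ^ 2) / (2 * z.re))
    rw [show 2 * ((z.re ^ 2 + z.im ^ 2) / (2 * z.re)) * z.re = z.re ^ 2 + z.im ^ 2 by field_simp] at this
    linarith
  have y1 : 1 < z.im := lt_of_le_of_ne (by nlinarith [p 0]) fun e => k (Complex.ext (by simp [x0]) (by simp [← e]))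
  have y2 := (abs_lt.1 ((abs_im_le_norm _).trans_lt n)).2
  simp only [sub_im, I_im] at y2
  have l3 : 0 < Real.log 3 := Real.log_pos (by norm_num)
  have l4 : Real.log 3 < 1.2 := by
    have := Real.log_le_sub_one_of_pos (show (0 : ℝ) < 3 / 2 by norm_num)
    rw [Real.log_div (by norm_num) (by norm_num)] at this
    linarith [Real.log_two_lt_d9]
  have g (y : ℝ) (y0 : 0 < y) (y2 : y < 2) : G ((2 : ℝ) * I) (y * I) = Real.log (y + 2) - Real.log (2 - y) := by
    rw [G, ← add_mul, ← sub_mul, ← ofReal_add, ← ofReal_sub]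
    simp only [Complex.norm_mul, norm_real, norm_I, mul_one, Real.norm_eq_abs, Real.log_abs]
    rw [← Real.log_neg_eq_log (y - 2), neg_sub]
  have := h (fun w => (Real.log 3)⁻¹ * G ((2 : ℝ) * I) w) (fun w hw => (Gh two_pos hw.1 hw.2).1.const_smul)
    (fun w hw => mul_pos (inv_pos.2 l3) (Gh two_pos hw.1 hw.2).2) (by
      have := g 1 one_pos one_lt_two
      norm_num at this
      simp [this, l3.ne'])
  have zz : z = z.im * I := Complex.ext (by simp [x0]) (by simp)
  generalize z.im = y at *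
  simp only [zz, g y y0 (by linarith)] at this
  rw [inv_mul_le_iff₀ l3] at this
  have a := Real.log_le_sub_one_of_pos (show 0 < 2 - y by linarith)
  have b := Real.log_le_sub_one_of_pos (show 0 < 3 / (y + 2) by positivity)
  rw [Real.log_div (by norm_num) (by linarith)] at b
  have c : 3 / (y + 2) ≤ 1 - (y - 1) * 0.3 := by rw [div_le_iff₀ (by linarith)]; nlinarith
  nlinarith

end Pool.Agent.H.MP_e6ddea_an
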